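import Mathlib
import Pool.Agent.H94.Phases

/-!
Offline packet routing with buffers of size one in `O (C * D^(1/3) + D)` steps.
-/

set_option autoImplicit false

namespace Pool.Agent.Results.MP_ac1d20_lc.BufferOne

open Pool.Agent.H94

/-- There is a constant `c` such that every family of simple directed paths with congestion at
most `C` and dilation at most `D` can be routed with buffers of size one within
`c * (C * E + D)` steps, whenever `D ≤ E ^ 3`. -/
theorem result :
    ∃ c : ℕ, ∀ (k C D E : ℕ) (P : Fin k → List ℕ), D ≤ E ^ 3 →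
      (∀ i, (P i).Nodup ∧ (P i).length ≤ D + 1) →
      (∀ u v : ℕ, {i : Fin k | ∃ j : ℕ, (P i)[j]? = some u ∧ (P i)[j+1]? = some v}.ncard ≤ C) →
      ∃ T : Fin k → ℕ → ℕ,
        (∀ i j, j + 2 < (P i).length → T i j < T i (j + 1)) ∧
        (∀ i j, j + 1 < (P i).length → T i j ≤ c * (C * E + D)) ∧
        (∀ i i' j j', i ≠ i' → j + 1 < (P i).length →
            (P i)[j]? = (P i')[j']? → (P i)[j+1]? = (P i')[j'+1]? → T i j ≠ T i' j') ∧
        (∀ i i' j j' s, i ≠ i' → j + 2 < (P i).length → j' + 2 < (P i').length →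
            (P i)[j]? = (P i')[j']? → (P i)[j+1]? = (P i')[j'+1]? →
            T i j ≤ s → s < T i (j + 1) → T i' j' ≤ s → s < T i' (j' + 1) → False) := by
  classical
  refine ⟨34000, ?_⟩
  intro k C D E P hDE hP hC
  by_cases hedge : ∃ i : Fin k, 1 < (P i).length
  swap
  · push Not at hedge
    refine ⟨fun _ _ => 0, ?_, ?_, ?_, ?_⟩
    · intro i j h; have := hedge i; omega
    · intro i j _; exact Nat.zero_le _
    · intro i i' j j' _ h; have := hedge i; omega
    · intro i i' j j' s _ h; have := hedge i; omega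
  obtain ⟨i0, hi0⟩ := hedge
  have hD1 : 1 ≤ D := by have := (hP i0).2; omega
  -- the path data
  have hget : ∀ i x, x < (P i).length → (P i)[x]? = some ((P i).getD x 0) := by
    intro i x hx
    rw [List.getD_eq_getElem _ _ hx, List.getElem?_eq_getElem hx]
  let G : PD k :=
    { m := fun i => (P i).length - 1
      v := fun i x => (P i).getD x 0
      inj := by
        intro i x y hx hy h
        rcases Nat.eq_zero_or_pos (P i).length with h0 | h0
        · omega
        · have hx' : x < (P i).length := by omega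
          have hy' : y < (P i).length := by omega
          rw [List.getD_eq_getElem _ _ hx', List.getD_eq_getElem _ _ hy'] at h
          exact ((hP i).1.getElem_inj_iff).mp h }
  have hGm : ∀ i, G.m i = (P i).length - 1 := fun _ => rfl
  have hGv : ∀ i x, G.v i x = (P i).getD x 0 := fun _ _ => rfl
  have hsame : ∀ i x j y, G.Same i x j y →
      (P i)[x]? = (P j)[y]? ∧ (P i)[x+1]? = (P j)[y+1]? := by
    rintro i x j y ⟨h1, h2, h3, h4⟩
    rw [hGm] at h1 h2
    rw [hGv, hGv] at h3 h4
    rw [hget i x (by omega), hget j y (by omega), hget i (x+1) (by omega),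
      hget j (y+1) (by omega), h3, h4]
    exact ⟨rfl, rfl⟩
  have hsame' : ∀ i x j y, x + 1 < (P i).length → (P i)[x]? = (P j)[y]? →
      (P i)[x+1]? = (P j)[y+1]? → G.Same i x j y := by
    intro i x j y h1 h2 h3
    have hy : y + 1 < (P j).length := by
      rw [hget i (x+1) h1] at h3
      exact (List.getElem?_eq_some_iff.mp h3.symm).1
    rw [hget i x (by omega), hget j y (by omega)] at h2
    rw [hget i (x+1) (by omega), hget j (y+1) (by omega)] at h3
    refine ⟨?_, ?_, ?_, ?_⟩
    · rw [hGm]; omega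
    · rw [hGm]; omega
    · rw [hGv, hGv]; exact Option.some_injective _ h2
    · rw [hGv, hGv]; exact Option.some_injective _ h3
  have husers : ∀ i x, x < G.m i → (G.users i x).card ≤ C := by
    intro i x hx
    refine le_trans ?_ (hC (G.v i x) (G.v i (x+1)))
    rw [← Set.ncard_coe_finset]
    apply Set.ncard_le_ncard _ (Set.toFinite _)
    intro j hj
    simp only [PD.users, Finset.coe_filter, Finset.mem_univ, true_and, Set.mem_ofPred_eq] at hj
    obtain ⟨y, hy⟩ := hj
    refine ⟨y, ?_, ?_⟩
    · rw [hget j y (by have := hy.2.1; rw [hGm] at this; omega), ← hGv, hy.2.2.1]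
    · rw [hget j (y+1) (by have := hy.2.1; rw [hGm] at this; omega), ← hGv, hy.2.2.2]
  have hC1 : 1 ≤ C := by
    refine le_trans ?_ (husers i0 0 (by rw [hGm]; omega))
    rw [Nat.one_le_iff_ne_zero, Finset.card_ne_zero]
    refine ⟨i0, ?_⟩
    simp only [PD.users, Finset.mem_filter, Finset.mem_univ, true_and]
    exact ⟨0, by rw [hGm]; omega, by rw [hGm]; omega, rfl, rfl⟩
  have hm : ∀ i, G.m i ≤ D := by
    intro i
    have := (hP i).2
    rw [hGm]
    omega
  have hR : 4 * (4 * (D * (81 * C * (2 * (81 * C) * (3 * (81 * C)))))) * 729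
      ≤ (3400 * (C * E)) ^ 3 := by
    have h1 : 4 * (4 * (D * (81 * C * (2 * (81 * C) * (3 * (81 * C)))))) * 729
        = 37192366944 * (C ^ 3 * D) := by ring
    have h2 : (3400 * (C * E)) ^ 3 = 39304000000 * (C ^ 3 * E ^ 3) := by ring
    rw [h1, h2]
    exact Nat.mul_le_mul (by norm_num) (Nat.mul_le_mul_left _ hDE)
  obtain ⟨φ, hφ, hcl⟩ := G.exists_phases hD1 hC1 hm husers hR
  obtain ⟨t, t1, t2, t3, t4⟩ := PD.sim (G := G) (φ := φ) hcl
  refine ⟨t, ?_, ?_, ?_, ?_⟩
  · intro i j h
    apply t1
    rw [hGm]; omega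
  · intro i j h
    have h1 := t2 i j (by rw [hGm]; omega)
    have h2 := hφ i
    have h3 := (hP i).2
    nlinarith
  · intro i i' j j' hne h h2 h3
    exact t3 i i' j j' hne (hsame' i j i' j' h h2 h3)
  · intro i i' j j' s hne h h' h2 h3 a1 a2 a3 a4
    have hs := hsame' i j i' j' (by omega) h2 h3
    rcases t4 i i' j j' hne hs (by rw [hGm]; omega) (by rw [hGm]; omega) with h5 | h5
    · omega
    · omega

end Pool.Agent.Results.MP_ac1d20_lc.BufferOne
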