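import Mathlib
import Pool.Agent.H72R.Trans
import Pool.Agent.H72R.Lists
import Pool.Agent.H72R.Color
import Pool.Agent.H72R.NetLemmas
import Pool.Agent.H72R.Sched
import Pool.Agent.H72R.Exist

/-!
Offline packet routing with buffers of size one in `O ((C + D) * polylog)` steps.
-/

set_option autoImplicit false

namespace Pool.Agent.Results.MP_ac1d20_lc.BufferOnePolylog

open Pool.Agent.H72R Finset
open scoped Classical

theorem arith_bad {B R W k X Y g : ℕ} (hB : 1 ≤ B) (hW : 0 < W) (h2 : 2 * g ≤ W)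
    (h3 : R ≤ 2 * W) (hb : X * W ^ B ≤ k * R * g ^ (B - 1) * Y) : X * 2 ^ B ≤ 4 * k * Y := by
  obtain ⟨b, rfl⟩ : ∃ b, B = b + 1 := ⟨B - 1, by omega⟩
  rw [Nat.add_sub_cancel] at hb
  have hpos : 0 < W ^ (b + 1) := pow_pos hW _
  refine Nat.le_of_mul_le_mul_right ?_ hpos
  have h4 : 2 ^ b * g ^ b ≤ W ^ b := by
    rw [← mul_pow]
    exact Nat.pow_le_pow_left h2 _
  calc X * 2 ^ (b + 1) * W ^ (b + 1) = 2 ^ (b + 1) * (X * W ^ (b + 1)) := by ring
    _ ≤ 2 ^ (b + 1) * (k * R * g ^ b * Y) := Nat.mul_le_mul_left _ hb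
    _ = 2 * k * Y * R * (2 ^ b * g ^ b) := by ring
    _ ≤ 2 * k * Y * R * W ^ b := Nat.mul_le_mul_left _ h4
    _ ≤ 2 * k * Y * (2 * W) * W ^ b := by
        apply Nat.mul_le_mul_right
        exact Nat.mul_le_mul_left _ h3
    _ = 4 * k * Y * W ^ (b + 1) := by ring

/-- The core statement for a family of paths with marked edges. -/
theorem core {k C D L : ℕ} (N : Net k) (hk : 1 ≤ k) (hC1 : 1 ≤ C) (hD1 : 1 ≤ D)
    (hL : k * (C + D) ≤ 2 ^ L)
    (hN : N.Ok (64 * (L + 1)) C D) :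
    ∃ T : Fin k → ℕ → ℕ,
      (∀ i x, x + 1 < N.len i → T i x < T i (x + 1)) ∧
      (∀ i x, x < N.len i → T i x ≤ 18 * 64 ^ 5 * (16 * 64 ^ 6 + 10) *
        ((C * (L + 1) ^ 6 + D) * (L + 1) ^ 5)) ∧
      (∀ i i' x x', i ≠ i' → x < N.len i → x' < N.len i' → N.e i x = N.e i' x' →
        T i x ≠ T i' x') ∧
      (∀ i i' x x', i ≠ i' → x + 1 < N.len i → x' + 1 < N.len i' → N.e i x = N.e i' x' →
        T i (x + 1) ≤ T i' x' ∨ T i' (x' + 1) ≤ T i x) := by
  obtain ⟨B, hB⟩ : ∃ B, B = 64 * (L + 1) := ⟨_, rfl⟩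
  obtain ⟨H, hH⟩ : ∃ H, H = B * B := ⟨_, rfl⟩
  obtain ⟨Γ, hΓ⟩ : ∃ Γ, Γ = C * B * (H + 1) ^ 2 := ⟨_, rfl⟩
  obtain ⟨R, hR⟩ : ∃ R, R = 2 * D + 2 * (B * Γ) + 2 := ⟨_, rfl⟩
  obtain ⟨Q, hQ⟩ : ∃ Q, Q = 2 * R + L + 2 := ⟨_, rfl⟩
  rw [← hB] at hN
  have hB1 : 64 ≤ B := by omega
  have hB0 : 1 ≤ B := by omega
  have hR0 : R ≠ 0 := by omega
  have : NeZero R := ⟨hR0⟩
  -- size of Q
  have hΓ1 : B * Γ ≤ 4 * (C * B ^ 6) := by
    have h1 : (H + 1) ^ 2 ≤ (2 * B ^ 2) ^ 2 := by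
      apply Nat.pow_le_pow_left
      rw [hH]; nlinarith
    calc B * Γ ≤ B * (C * B * (2 * B ^ 2) ^ 2) := by
          rw [hΓ]; exact Nat.mul_le_mul_left _ (Nat.mul_le_mul_left _ h1)
      _ = 4 * (C * B ^ 6) := by ring
  have hB6 : B ≤ B ^ 6 := Nat.le_self_pow (by norm_num) B
  have hQ1 : Q ≤ 4 * D + 16 * (C * B ^ 6) + L + 6 := by omega
  have hkQ : k * Q ≤ 2 ^ L * (17 * B ^ 6) := by
    have h1 : k * Q ≤ k * (4 * D + 16 * (C * B ^ 6) + L + 6) := Nat.mul_le_mul_left _ hQ1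
    have h2 : 4 * D + 16 * (C * B ^ 6) + L + 6 ≤ (C + D) * (17 * B ^ 6) := by
      have h3 : L + 6 ≤ C * B ^ 6 := by
        have h4 : 1 * B ^ 6 ≤ C * B ^ 6 := Nat.mul_le_mul_right _ hC1
        omega
      have h5 : D * 4 ≤ D * (17 * B ^ 6) := Nat.mul_le_mul_left _ (by omega)
      have h6 : (C + D) * (17 * B ^ 6) = 17 * (C * B ^ 6) + D * (17 * B ^ 6) := by ring
      omega
    calc k * Q ≤ k * ((C + D) * (17 * B ^ 6)) := h1.trans (Nat.mul_le_mul_left _ h2)
      _ = (k * (C + D)) * (17 * B ^ 6) := by ring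
      _ ≤ 2 ^ L * (17 * B ^ 6) := Nat.mul_le_mul_right _ hL
  have hBL : B ≤ 2 ^ (6 + L) := by
    have h1 : L + 1 ≤ 2 ^ L := Nat.lt_two_pow_self
    calc B = 2 ^ 6 * (L + 1) := by rw [hB]; norm_num
      _ ≤ 2 ^ 6 * 2 ^ L := Nat.mul_le_mul_left _ h1
      _ = 2 ^ (6 + L) := by rw [pow_add]
  have h1 : 16 * k * (8 * B * Q) ≤ 2 ^ B := by
    calc 16 * k * (8 * B * Q) = 128 * B * (k * Q) := by ring
      _ ≤ 128 * B * (2 ^ L * (17 * B ^ 6)) := Nat.mul_le_mul_left _ hkQ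
      _ = 2176 * 2 ^ L * B ^ 7 := by ring
      _ ≤ 2 ^ 12 * 2 ^ L * (2 ^ (6 + L)) ^ 7 := by
          apply Nat.mul_le_mul
          · apply Nat.mul_le_mul_right; norm_num
          · exact Nat.pow_le_pow_left hBL 7
      _ = 2 ^ (12 + L + (6 + L) * 7) := by rw [← pow_mul, ← pow_add, ← pow_add]
      _ ≤ 2 ^ B := by
          apply Nat.pow_le_pow_right (by norm_num)
          omega
  have h2 : 4 * k * (8 * B * Q) ≤ 2 ^ B := by
    refine le_trans ?_ h1
    apply Nat.mul_le_mul_right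
    omega
  -- few bad configurations
  have hRD : R - D = D + 2 * (B * Γ) + 2 := by omega
  have hRD0 : 0 < R - D := by omega
  have hnb : ∀ i q, ((univ : Finset (Fin k × ZMod R)).filter fun p =>
      ¬ Disjoint (N.Win R H i q) (N.Win R H p.1 p.2)).card ≤ Γ := by
    intro i q
    rw [hΓ]
    exact N.nb_count hN hB0 (by omega) i q
  have hb := bad_count (N.site R) (N.Win R H) Γ B (R - D) hB0 (fun i => N.priv hN i)
    (fun i q => by convert hnb i q)
  have hbad := arith_bad hB0 hRD0 (by omega) (by omega) hb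
  -- some configuration is free
  have hfree : ∃ x, Free (N.site R) x := by
    choose F hF1 hF2 using fun i => N.priv (R := R) hN i
    have hne : ∀ i, (F i).Nonempty := by
      intro i
      rw [← card_pos]
      have := hF1 i
      omega
    choose f hf using hne
    exact ⟨f, fun i i' hii => hF2 i (f i) (hf i) i' (f i') (Ne.symm hii)⟩
  have hk2 : k ≤ 2 ^ L := by
    refine le_trans ?_ hL
    exact Nat.le_mul_of_pos_right k (by omega)
  obtain ⟨M0, x, j, hM0, hg⟩ := exists_good (N.site R) (N.Win R H) (m := B) (h := B)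
    (lam := L) (Q := Q) (by rw [Fintype.card_fin]; exact hk) hB0 hB0 hfree hbad
    (by rw [Fintype.card_fin]; exact hk2) hQ
    (by rw [Fintype.card_fin]; exact h1) (by rw [Fintype.card_fin]; exact h2)
  have hHR : H < R := by
    have h3 : H ≤ Γ := by
      rw [hΓ]
      have h4 : 1 * 1 * (H + 1) ^ 2 ≤ C * B * (H + 1) ^ 2 :=
        Nat.mul_le_mul_right _ (Nat.mul_le_mul hC1 hB0)
      nlinarith
    have h5 : 1 * Γ ≤ B * Γ := Nat.mul_le_mul_right _ hB0
    omega
  have hyp : Hyp (N.site R) (N.Win R H) (N.Tch R) B B H :=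
    { hs := fun i => N.site_inj i
      hAT := fun i q d hd => N.touch_win i q d hd
      hAS := fun i i' q q' d d' hne hd hd' he => N.site_win i i' q q' d d' hne hd hd' he
      hH := hH.ge
      hHR := hHR }
  obtain ⟨G, ⟨tr⟩⟩ := transcript_of_good hyp hM0 hg
  obtain ⟨T, t1, t2, t3, t4⟩ := sched N hN hB0 (by omega) tr
  refine ⟨T, t1, ?_, t3, t4⟩
  intro i y hy
  refine (t2 i y hy).trans ?_
  have hQpos : 1 ≤ Q := by omega
  have hQB : 1 ≤ Q * B ^ 4 := Nat.mul_pos hQpos (pow_pos (by omega) 4)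
  have h3 : 8 * B * Q * B * B ^ 2 + 1 ≤ 9 * (Q * B ^ 4) := by
    have : 8 * B * Q * B * B ^ 2 = 8 * (Q * B ^ 4) := by ring
    omega
  have h4 : Q ≤ (16 * 64 ^ 6 + 10) * (C * (L + 1) ^ 6 + D) := by
    have h5 : C * B ^ 6 = 64 ^ 6 * (C * (L + 1) ^ 6) := by rw [hB]; ring
    have h6 : L + 1 ≤ C * (L + 1) ^ 6 := by
      have h7 : L + 1 ≤ (L + 1) ^ 6 := Nat.le_self_pow (by norm_num) _
      have h8 : 1 * (L + 1) ^ 6 ≤ C * (L + 1) ^ 6 := Nat.mul_le_mul_right _ hC1
      omega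
    rw [h5] at hQ1
    have h9 : (16 * 64 ^ 6 + 10) * (C * (L + 1) ^ 6 + D) =
      16 * (64 ^ 6 * (C * (L + 1) ^ 6)) + 10 * (C * (L + 1) ^ 6) + (16 * 64 ^ 6 + 10) * D := by
      ring
    rw [h9]
    omega
  calc (8 * B * Q * B * B ^ 2 + 1) * (B + 1) ≤ (9 * (Q * B ^ 4)) * (2 * B) :=
        Nat.mul_le_mul h3 (by omega)
    _ = 18 * 64 ^ 5 * (L + 1) ^ 5 * Q := by rw [hB]; ring
    _ ≤ 18 * 64 ^ 5 * (L + 1) ^ 5 * ((16 * 64 ^ 6 + 10) * (C * (L + 1) ^ 6 + D)) :=
        Nat.mul_le_mul_left _ h4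
    _ = 18 * 64 ^ 5 * (16 * 64 ^ 6 + 10) * ((C * (L + 1) ^ 6 + D) * (L + 1) ^ 5) := by ring

/-- There is a constant `c` such that every family of `k` simple directed paths with congestion
at most `C` and dilation at most `D` can be routed with buffers of size one within
`c * (C * (L + 1) ^ 6 + D) * (L + 1) ^ 5` steps, whenever `k * (C + D) ≤ 2 ^ L`. -/
theorem result :
    ∃ c : ℕ, ∀ (k C D L : ℕ) (P : Fin k → List ℕ), k * (C + D) ≤ 2 ^ L →
      (∀ i, (P i).Nodup ∧ (P i).length ≤ D + 1) →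
      (∀ u v : ℕ, {i : Fin k | ∃ j : ℕ, (P i)[j]? = some u ∧ (P i)[j+1]? = some v}.ncard ≤ C) →
      ∃ T : Fin k → ℕ → ℕ,
        (∀ i j, j + 2 < (P i).length → T i j < T i (j + 1)) ∧
        (∀ i j, j + 1 < (P i).length → T i j ≤ c * ((C * (L + 1) ^ 6 + D) * (L + 1) ^ 5)) ∧
        (∀ i i' j j', i ≠ i' → j + 1 < (P i).length →
            (P i)[j]? = (P i')[j']? → (P i)[j+1]? = (P i')[j'+1]? → T i j ≠ T i' j') ∧
        (∀ i i' j j' s, i ≠ i' → j + 2 < (P i).length → j' + 2 < (P i').length →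
            (P i)[j]? = (P i')[j']? → (P i)[j+1]? = (P i')[j'+1]? →
            T i j ≤ s → s < T i (j + 1) → T i' j' ≤ s → s < T i' (j' + 1) → False) := by
  refine ⟨18 * 64 ^ 5 * (16 * 64 ^ 6 + 10), ?_⟩
  intro k C D L P hL hP hC
  by_cases hedge : ∃ i : Fin k, 1 < (P i).length
  swap
  · push Not at hedge
    refine ⟨fun _ _ => 0, ?_, ?_, ?_, ?_⟩
    · intro i j h; have := hedge i; omega
    · intro i j _; exact Nat.zero_le _
    · intro i i' j j' _ h; have := hedge i; omega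
    · intro i i' j j' s _ h; have := hedge i; omega
  obtain ⟨i0, hi0⟩ := hedge
  have hD1 : 1 ≤ D := by have := (hP i0).2; omega
  have hk1 : 1 ≤ k := by have := i0.2; omega
  -- the path data
  have hget : ∀ i x, x < (P i).length → (P i)[x]? = some ((P i).getD x 0) := by
    intro i x hx
    rw [List.getD_eq_getElem _ _ hx, List.getElem?_eq_getElem hx]
  have hvinj : ∀ i x y, x < (P i).length → y < (P i).length →
      (P i).getD x 0 = (P i).getD y 0 → x = y := by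
    intro i x y hx hy h
    rw [List.getD_eq_getElem _ _ hx, List.getD_eq_getElem _ _ hy] at h
    exact ((hP i).1.getElem_inj_iff).mp h
  have hBL : 64 * (L + 1) + 2 ≤ 2 ^ (7 + L) := by
    have h1 : L + 1 ≤ 2 ^ L := Nat.lt_two_pow_self
    rw [pow_add]; omega
  have hcol := color (k := k) (D := D) (r := 64 * (L + 1)) (fun i => (P i).length - 1)
    (fun i x => (P i).getD x 0)
    (by
      intro i x y hx hy h
      rcases Nat.eq_zero_or_pos (P i).length with h0 | h0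
      · omega
      · exact hvinj i x y (by omega) (by omega) h)
    (by intro i; have := (hP i).2; show (P i).length - 1 ≤ D; omega)
    (by omega)
    (by
      have h1 : k * D ≤ 2 ^ L := le_trans (Nat.mul_le_mul_left k (by omega)) hL
      calc k * D * (64 * (L + 1) + 2) ≤ 2 ^ L * 2 ^ (7 + L) := Nat.mul_le_mul h1 hBL
        _ = 2 ^ (L + (7 + L)) := by rw [← pow_add]
        _ < 2 ^ (64 * (L + 1) + 1) := Nat.pow_lt_pow_right (by norm_num) (by omega))
  obtain ⟨col, hcol⟩ := hcol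
  let N : Net k :=
    { len := fun i => (P i).length - 1
      e := fun i x => Nat.pair ((P i).getD x 0) ((P i).getD (x + 1) 0)
      Z := fun c => col (Nat.unpair c).1 = false ∧ col (Nat.unpair c).2 = true
      inj := by
        intro i x y hx hy h
        rw [Nat.pair_eq_pair] at h
        exact hvinj i x y (by omega) (by omega) h.1
      sep := by
        intro i x hx h1 h2
        simp only [Nat.unpair_pair] at h1 h2
        rw [h2.1] at h1
        exact absurd h1.2 (by decide) }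
  have hNlen : ∀ i, N.len i = (P i).length - 1 := fun _ => rfl
  have hNe : ∀ i x, N.e i x = Nat.pair ((P i).getD x 0) ((P i).getD (x + 1) 0) :=
    fun _ _ => rfl
  have hN : N.Ok (64 * (L + 1)) C D := by
    refine ⟨?_, ?_, ?_⟩
    · intro i x hx
      obtain ⟨y, h1, h2, h3, h4⟩ := hcol i x hx
      refine ⟨y, h1, h2, ?_⟩
      show col (Nat.unpair (N.e i y)).1 = false ∧ col (Nat.unpair (N.e i y)).2 = true
      rw [hNe, Nat.unpair_pair]
      exact ⟨h3, h4⟩
    · intro c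
      refine le_trans ?_ (hC (Nat.unpair c).1 (Nat.unpair c).2)
      rw [← Set.ncard_coe_finset]
      apply Set.ncard_le_ncard _ (Set.toFinite _)
      intro i hi
      simp only [Finset.coe_filter, Finset.mem_univ, true_and, Set.mem_ofPred_eq] at hi
      obtain ⟨x, hx, he⟩ := hi
      rw [hNlen] at hx
      rw [hNe] at he
      refine ⟨x, ?_, ?_⟩
      · rw [hget i x (by omega), ← he, Nat.unpair_pair]
      · rw [hget i (x + 1) (by omega), ← he, Nat.unpair_pair]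
    · intro i
      have := (hP i).2
      rw [hNlen]; omega
  have hC1 : 1 ≤ C := by
    refine le_trans ?_ (hN.cong (N.e i0 0))
    rw [Nat.one_le_iff_ne_zero, Finset.card_ne_zero]
    refine ⟨i0, ?_⟩
    rw [mem_filter]
    exact ⟨mem_univ _, 0, by rw [hNlen]; omega, rfl⟩
  obtain ⟨T, t1, t2, t3, t4⟩ := core N hk1 hC1 hD1 hL hN
  have hsame : ∀ i i' x x', x + 1 < (P i).length → (P i)[x]? = (P i')[x']? →
      (P i)[x+1]? = (P i')[x'+1]? → x' + 1 < (P i').length ∧ N.e i x = N.e i' x' := by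
    intro i i' x x' h1 h2 h3
    have hy : x' + 1 < (P i').length := by
      rw [hget i (x+1) h1] at h3
      exact (List.getElem?_eq_some_iff.mp h3.symm).1
    rw [hget i x (by omega), hget i' x' (by omega)] at h2
    rw [hget i (x+1) (by omega), hget i' (x'+1) (by omega)] at h3
    refine ⟨hy, ?_⟩
    rw [hNe, hNe, Option.some_injective _ h2, Option.some_injective _ h3]
  refine ⟨T, ?_, ?_, ?_, ?_⟩
  · intro i j h
    apply t1
    rw [hNlen]; omega
  · intro i j h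
    exact t2 i j (by rw [hNlen]; omega)
  · intro i i' j j' hne h h2 h3
    obtain ⟨h4, h5⟩ := hsame i i' j j' h h2 h3
    exact t3 i i' j j' hne (by rw [hNlen]; omega) (by rw [hNlen]; omega) h5
  · intro i i' j j' s hne h h' h2 h3 a1 a2 a3 a4
    obtain ⟨_, h5⟩ := hsame i i' j j' (by omega) h2 h3
    rcases t4 i i' j j' hne (by rw [hNlen]; omega) (by rw [hNlen]; omega) h5 with h6 | h6
    · omega
    · omega

end Pool.Agent.Results.MP_ac1d20_lc.BufferOnePolylog
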