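import Mathlib
import Pool.Agent.H94.Schedule

/-!
Offline packet routing with buffers of size two in `O (C + D)` steps.
-/

set_option autoImplicit false

namespace Pool.Agent.Results.MP_ac1d20_lc.BufferTwo

open Pool.Agent.H94

/-- There is a constant `c` such that every family of simple directed paths with congestion at
most `C` and dilation at most `D` can be routed with buffers of size two within
`c * (C + D)` steps.  Moreover at any time at most one packet of a buffer is really waiting:
two packets that stay longer than one step in the buffer of the same edge stay there during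
disjoint closed time intervals. -/
theorem result :
    ∃ c : ℕ, ∀ (k C D : ℕ) (P : Fin k → List ℕ),
      (∀ i, (P i).Nodup ∧ (P i).length ≤ D + 1) →
      (∀ u v : ℕ, {i : Fin k | ∃ j : ℕ, (P i)[j]? = some u ∧ (P i)[j+1]? = some v}.ncard ≤ C) →
      ∃ T : Fin k → ℕ → ℕ,
        (∀ i j, j + 2 < (P i).length → T i j < T i (j + 1)) ∧
        (∀ i j, j + 1 < (P i).length → T i j ≤ c * (C + D)) ∧
        (∀ i i' j j', i ≠ i' → j + 1 < (P i).length →
            (P i)[j]? = (P i')[j']? → (P i)[j+1]? = (P i')[j'+1]? → T i j ≠ T i' j') ∧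
        (∀ i i' i'' j j' j'' s, i ≠ i' → i ≠ i'' → i' ≠ i'' →
            j + 2 < (P i).length → j' + 2 < (P i').length → j'' + 2 < (P i'').length →
            (P i)[j]? = (P i')[j']? → (P i)[j+1]? = (P i')[j'+1]? →
            (P i)[j]? = (P i'')[j'']? → (P i)[j+1]? = (P i'')[j''+1]? →
            T i j ≤ s → s < T i (j + 1) → T i' j' ≤ s → s < T i' (j' + 1) →
            T i'' j'' ≤ s → s < T i'' (j'' + 1) → False) ∧
        (∀ i i' j j', i ≠ i' → j + 2 < (P i).length → j' + 2 < (P i').length →
            (P i)[j]? = (P i')[j']? → (P i)[j+1]? = (P i')[j'+1]? →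
            T i j + 1 < T i (j + 1) → T i' j' + 1 < T i' (j' + 1) →
            T i (j + 1) < T i' j' ∨ T i' (j' + 1) < T i j) := by
  classical
  refine ⟨(8 * 2 ^ 101 + 2) * ((PD.Del (2 ^ 99) + 1) * (4 * 2 ^ 99)), ?_⟩
  intro k C D P hP hC
  by_cases hedge : ∃ i : Fin k, 1 < (P i).length
  swap
  · push Not at hedge
    refine ⟨fun _ _ => 0, ?_, ?_, ?_, ?_, ?_⟩
    · intro i j h; have := hedge i; omega
    · intro i j _; exact Nat.zero_le _
    · intro i i' j j' _ h; have := hedge i; omega
    · intro i i' i'' j j' j'' s _ _ _ h; have := hedge i; omega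
    · intro i i' j j' _ h; have := hedge i; omega
  obtain ⟨i0, hi0⟩ := hedge
  -- the path data
  have hget : ∀ i x, x < (P i).length → (P i)[x]? = some ((P i).getD x 0) := by
    intro i x hx
    rw [List.getD_eq_getElem _ _ hx, List.getElem?_eq_getElem hx]
  let G : PD k :=
    { m := fun i => (P i).length - 1
      v := fun i x => (P i).getD x 0
      inj := by
        intro i x y hx hy h
        rcases Nat.eq_zero_or_pos (P i).length with h0 | h0
        · omega
        · have hx' : x < (P i).length := by omega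
          have hy' : y < (P i).length := by omega
          rw [List.getD_eq_getElem _ _ hx', List.getD_eq_getElem _ _ hy'] at h
          exact ((hP i).1.getElem_inj_iff).mp h }
  have hGm : ∀ i, G.m i = (P i).length - 1 := fun _ => rfl
  have hGv : ∀ i x, G.v i x = (P i).getD x 0 := fun _ _ => rfl
  have hsame' : ∀ i x j y, x + 1 < (P i).length → (P i)[x]? = (P j)[y]? →
      (P i)[x+1]? = (P j)[y+1]? → G.Same i x j y := by
    intro i x j y h1 h2 h3
    have hy : y + 1 < (P j).length := by
      rw [hget i (x+1) h1] at h3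
      exact (List.getElem?_eq_some_iff.mp h3.symm).1
    rw [hget i x (by omega), hget j y (by omega)] at h2
    rw [hget i (x+1) (by omega), hget j (y+1) (by omega)] at h3
    refine ⟨?_, ?_, ?_, ?_⟩
    · rw [hGm]; omega
    · rw [hGm]; omega
    · rw [hGv, hGv]; exact Option.some_injective _ h2
    · rw [hGv, hGv]; exact Option.some_injective _ h3
  have husers : ∀ i x, x < G.m i → (G.users i x).card ≤ C := by
    intro i x hx
    refine le_trans ?_ (hC (G.v i x) (G.v i (x+1)))
    rw [← Set.ncard_coe_finset]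
    apply Set.ncard_le_ncard _ (Set.toFinite _)
    intro j hj
    simp only [PD.users, Finset.coe_filter, Finset.mem_univ, true_and, Set.mem_ofPred_eq] at hj
    obtain ⟨y, hy⟩ := hj
    refine ⟨y, ?_, ?_⟩
    · rw [hget j y (by have := hy.2.1; rw [hGm] at this; omega), ← hGv, hy.2.2.1]
    · rw [hget j (y+1) (by have := hy.2.1; rw [hGm] at this; omega), ← hGv, hy.2.2.2]
  have hC1 : 1 ≤ C := by
    refine le_trans ?_ (husers i0 0 (by rw [hGm]; omega))
    rw [Nat.one_le_iff_ne_zero, Finset.card_ne_zero]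
    refine ⟨i0, ?_⟩
    simp only [PD.users, Finset.mem_filter, Finset.mem_univ, true_and]
    exact ⟨0, by rw [hGm]; omega, by rw [hGm]; omega, rfl, rfl⟩
  have hm : ∀ i, G.m i ≤ D := by
    intro i
    have := (hP i).2
    rw [hGm]
    omega
  obtain ⟨S, Λ, hS1, hS2, hS3, hS4, hΛ⟩ := PD.exists_nominal (G := G) hC1 hm husers
  have h2p : (2 : ℕ) ^ 100 = 2 * 2 ^ 99 := by norm_num
  have hS : G.NomI S Λ (2 ^ 99) := ⟨hS1, hS2, hS3, by rw [← h2p]; exact hS4⟩
  obtain ⟨t, t1, t2, t3, t4⟩ := PD.schedule hS (by norm_num)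
  refine ⟨t, ?_, ?_, ?_, ?_, ?_⟩
  · intro i j h
    apply t1
    rw [hGm]; omega
  · intro i j h
    have h1 := t2 i j (by rw [hGm]; omega)
    refine h1.trans ?_
    have h2 : Λ + 2 ≤ (8 * 2 ^ 101 + 2) * (C + D) := by
      have : 8 * (2 ^ 101 * C) = 8 * 2 ^ 101 * C := by ring
      nlinarith
    calc (Λ + 2) * ((PD.Del (2 ^ 99) + 1) * (4 * 2 ^ 99))
        ≤ ((8 * 2 ^ 101 + 2) * (C + D)) * ((PD.Del (2 ^ 99) + 1) * (4 * 2 ^ 99)) :=
          Nat.mul_le_mul_right _ h2
      _ = _ := by ring
  · intro i i' j j' hne h h2 h3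
    exact t3 i j i' j' hne (hsame' i j i' j' h h2 h3)
  · intro i i' i'' j j' j'' s h12 h13 h23 l1 l2 l3 a1 a2 b1 b2 c1 c2 c3 c4 c5 c6
    have s12 := hsame' i j i' j' (by omega) a1 a2
    have s13 := hsame' i j i'' j'' (by omega) b1 b2
    have s23 := s12.symm.trans s13
    have d12 := t3 i j i' j' h12 s12
    have d13 := t3 i j i'' j'' h13 s13
    have d23 := t3 i' j' i'' j'' h23 s23
    have m1 : j + 1 < G.m i := by rw [hGm]; omega
    have m2 : j' + 1 < G.m i' := by rw [hGm]; omega
    have m3 : j'' + 1 < G.m i'' := by rw [hGm]; omega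
    have w12 := t4 i j i' j' h12 s12 m1 m2
    have w13 := t4 i j i'' j'' h13 s13 m1 m3
    have w23 := t4 i' j' i'' j'' h23 s23 m2 m3
    omega
  · intro i i' j j' hne h h' h2 h3 w1 w2
    exact t4 i j i' j' hne (hsame' i j i' j' (by omega) h2 h3) (by rw [hGm]; omega)
      (by rw [hGm]; omega) w1 w2

end Pool.Agent.Results.MP_ac1d20_lc.BufferTwo
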