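import Mathlib
import Pool.Agent.Lev25.Local

/-!
Offline packet routing with buffers of size one in `O (C + D)` steps for families of paths that
have levels on the edges, at least locally.
-/

set_option autoImplicit false

namespace Pool.Agent.Results.MP_ac1d20_lc.LocallyLeveled

open Pool.Agent.H94 Pool.Agent.Lev25 Finset

/-- Packet `i` crosses the edge from `u` to `v`. -/
def Uses {k : ℕ} (P : Fin k → List ℕ) (i : Fin k) (u v : ℕ) : Prop :=
  ∃ j : ℕ, (P i)[j]? = some u ∧ (P i)[j + 1]? = some v

/-- A family of simple directed paths with congestion at most `C` and dilation at most `D`. -/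
def PathFamily {k : ℕ} (P : Fin k → List ℕ) (C D : ℕ) : Prop :=
  (∀ i, (P i).Nodup ∧ (P i).length ≤ D + 1) ∧
  (∀ u v : ℕ, {i : Fin k | Uses P i u v}.ncard ≤ C)

/-- Some packet of the set `A` crosses the edge `a` and directly after it the edge `b`. An edge
is the pair of its tail and its head. -/
def Turn {k : ℕ} (P : Fin k → List ℕ) (A : Set (Fin k)) (a b : ℕ × ℕ) : Prop :=
  ∃ i ∈ A, ∃ j : ℕ, (P i)[j]? = some a.1 ∧ (P i)[j + 1]? = some a.2 ∧
    (P i)[j + 1]? = some b.1 ∧ (P i)[j + 2]? = some b.2

/-- From each edge `a` of a path of the set `A` to the next edge `b` of this path there is an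
increment `g a b` between `1` and `K`, and the total increment is zero along every closed walk
with at most `L` steps. The walk visits the edges `w 0, ..., w n`; each step goes from an edge of
a path to the next one, where `g` is counted, or from an edge of a path to the preceding one,
where `-g` is counted. (If the edges have levels that go up by at least `1` and at most `K` from
each edge of a path to the next, then this holds for all `L`, with the differences of the levels
as increments.) -/
def HasLocalLevels {k : ℕ} (P : Fin k → List ℕ) (A : Set (Fin k)) (K L : ℕ) : Prop :=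
  ∃ g : ℕ × ℕ → ℕ × ℕ → ℤ, (∀ a b, Turn P A a b → 1 ≤ g a b ∧ g a b ≤ K) ∧
    ∀ (n : ℕ) (w : ℕ → ℕ × ℕ) (s : ℕ → ℤ), n ≤ L → w n = w 0 →
      (∀ l < n, (Turn P A (w l) (w (l + 1)) ∧ s l = g (w l) (w (l + 1))) ∨
        (Turn P A (w (l + 1)) (w l) ∧ s l = -g (w (l + 1)) (w l))) →
      ∑ l ∈ Finset.range n, s l = 0

/-- There is a schedule with buffers of size one that crosses every edge by step `M`: packet `i`
crosses its edge number `j` in step `T i j`. -/
def Routable {k : ℕ} (P : Fin k → List ℕ) (M : ℕ) : Prop :=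
  ∃ T : Fin k → ℕ → ℕ,
    (∀ i j, j + 2 < (P i).length → T i j < T i (j + 1)) ∧
    (∀ i j, j + 1 < (P i).length → T i j ≤ M) ∧
    (∀ i i' j j', i ≠ i' → j + 1 < (P i).length →
        (P i)[j]? = (P i')[j']? → (P i)[j+1]? = (P i')[j'+1]? → T i j ≠ T i' j') ∧
    (∀ i i' j j' s, i ≠ i' → j + 2 < (P i).length → j' + 2 < (P i').length →
        (P i)[j]? = (P i')[j']? → (P i)[j+1]? = (P i')[j'+1]? →
        T i j ≤ s → s < T i (j + 1) → T i' j' ≤ s → s < T i' (j' + 1) → False)

lemma walk_fun {R : ℕ × ℕ → ℕ × ℕ → ℤ → Prop} {a b : ℕ × ℕ} {n : ℕ} {f : ℤ}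
    (h : Walk R a b n f) :
    ∃ (w : ℕ → ℕ × ℕ) (s : ℕ → ℤ), w 0 = a ∧ w n = b ∧
      (∀ l < n, R (w l) (w (l + 1)) (s l) ∨ R (w (l + 1)) (w l) (-s l)) ∧
      ∑ l ∈ Finset.range n, s l = f := by
  induction h with
  | nil => exact ⟨fun _ => a, fun _ => 0, rfl, rfl, fun l hl => absurd hl (Nat.not_lt_zero _),
      by simp⟩
  | @fwd b c n f g _ hR ih =>
    obtain ⟨w, s, h0, h1, h2, h3⟩ := ih
    refine ⟨fun l => if l ≤ n then w l else c, fun l => if l < n then s l else g, ?_, ?_, ?_, ?_⟩
    · simpa using h0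
    · simp
    · intro l hl
      rcases Nat.lt_succ_iff_lt_or_eq.mp hl with h | h
      · have e1 : l ≤ n := h.le
        have e2 : l + 1 ≤ n := h
        simp only [if_pos h, if_pos e1, if_pos e2]
        exact h2 l h
      · subst h
        left
        simp [h1, hR]
    · rw [Finset.sum_range_succ]
      have : ∑ x ∈ Finset.range n, (if x < n then s x else g) = ∑ x ∈ Finset.range n, s x :=
        Finset.sum_congr rfl fun x hx => if_pos (Finset.mem_range.mp hx)
      rw [this, h3]
      simp
  | @bwd b c n f g _ hR ih =>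
    obtain ⟨w, s, h0, h1, h2, h3⟩ := ih
    refine ⟨fun l => if l ≤ n then w l else c, fun l => if l < n then s l else -g, ?_, ?_, ?_, ?_⟩
    · simpa using h0
    · simp
    · intro l hl
      rcases Nat.lt_succ_iff_lt_or_eq.mp hl with h | h
      · have e1 : l ≤ n := h.le
        have e2 : l + 1 ≤ n := h
        simp only [if_pos h, if_pos e1, if_pos e2]
        exact h2 l h
      · subst h
        right
        simp [h1, hR]
    · rw [Finset.sum_range_succ]
      have : ∑ x ∈ Finset.range n, (if x < n then s x else -g) = ∑ x ∈ Finset.range n, s x :=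
        Finset.sum_congr rfl fun x hx => if_pos (Finset.mem_range.mp hx)
      rw [this, h3]
      simp
      ring

/-- The main case, with a short range. -/
lemma main {k C D E K r : ℕ} {P : Fin k → List ℕ} (hK : 1 ≤ K) (hr : 1 ≤ r) (hrD : r ≤ D)
    (hDE : D ≤ E ^ r) (hP : PathFamily P C D)
    (hbal : HasLocalLevels P Set.univ K ((4 * K + 1) * r)) :
    Routable P ((384 * 4 ^ K + 7 * K) * (C * E + D)) := by
  classical
  obtain ⟨hP, hC⟩ := hP
  obtain ⟨g, hg, hbal⟩ := hbal
  by_cases hedge : ∃ i : Fin k, 1 < (P i).length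
  swap
  · push Not at hedge
    refine ⟨fun _ _ => 0, ?_, ?_, ?_, ?_⟩
    · intro i j h; have := hedge i; omega
    · intro i j _; exact Nat.zero_le _
    · intro i i' j j' _ h; have := hedge i; omega
    · intro i i' j j' s _ h; have := hedge i; omega
  obtain ⟨i0, hi0⟩ := hedge
  have hD1 : 1 ≤ D := by have := (hP i0).2; omega
  have hget : ∀ i x, x < (P i).length → (P i)[x]? = some ((P i).getD x 0) := by
    intro i x hx
    rw [List.getD_eq_getElem _ _ hx, List.getElem?_eq_getElem hx]
  let G : PD k :=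
    { m := fun i => (P i).length - 1
      v := fun i x => (P i).getD x 0
      inj := by
        intro i x y hx hy h
        rcases Nat.eq_zero_or_pos (P i).length with h0 | h0
        · omega
        · have hx' : x < (P i).length := by omega
          have hy' : y < (P i).length := by omega
          rw [List.getD_eq_getElem _ _ hx', List.getD_eq_getElem _ _ hy'] at h
          exact ((hP i).1.getElem_inj_iff).mp h }
  have hGm : ∀ i, G.m i = (P i).length - 1 := fun _ => rfl
  have hGv : ∀ i x, G.v i x = (P i).getD x 0 := fun _ _ => rfl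
  have hsame' : ∀ i x j y, x + 1 < (P i).length → (P i)[x]? = (P j)[y]? →
      (P i)[x+1]? = (P j)[y+1]? → G.Same i x j y := by
    intro i x j y h1 h2 h3
    have hy : y + 1 < (P j).length := by
      rw [hget i (x+1) h1] at h3
      exact (List.getElem?_eq_some_iff.mp h3.symm).1
    rw [hget i x (by omega), hget j y (by omega)] at h2
    rw [hget i (x+1) (by omega), hget j (y+1) (by omega)] at h3
    refine ⟨?_, ?_, ?_, ?_⟩
    · rw [hGm]; omega
    · rw [hGm]; omega
    · rw [hGv, hGv]; exact Option.some_injective _ h2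
    · rw [hGv, hGv]; exact Option.some_injective _ h3
  have husers : ∀ i x, x < G.m i → (G.users i x).card ≤ C := by
    intro i x hx
    refine le_trans ?_ (hC (G.v i x) (G.v i (x+1)))
    rw [← Set.ncard_coe_finset]
    apply Set.ncard_le_ncard _ (Set.toFinite _)
    intro j hj
    simp only [PD.users, Finset.coe_filter, Finset.mem_univ, true_and, Set.mem_ofPred_eq] at hj
    obtain ⟨y, hy⟩ := hj
    refine ⟨y, ?_, ?_⟩
    · rw [hget j y (by have := hy.2.1; rw [hGm] at this; omega), ← hGv, hy.2.2.1]
    · rw [hget j (y+1) (by have := hy.2.1; rw [hGm] at this; omega), ← hGv, hy.2.2.2]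
  have hC1 : 1 ≤ C := by
    refine le_trans ?_ (husers i0 0 (by rw [hGm]; omega))
    rw [Nat.one_le_iff_ne_zero, Finset.card_ne_zero]
    refine ⟨i0, ?_⟩
    simp only [PD.users, Finset.mem_filter, Finset.mem_univ, true_and]
    exact ⟨0, by rw [hGm]; omega, by rw [hGm]; omega, rfl, rfl⟩
  have hm : ∀ i, G.m i ≤ D := by
    intro i
    have := (hP i).2
    rw [hGm]
    omega
  have hturn : ∀ i x, x + 1 < G.m i → Turn P Set.univ (ed G i x) (ed G i (x + 1)) := by
    intro i x hx
    rw [hGm] at hx
    refine ⟨i, Set.mem_univ _, x, ?_, ?_, ?_, ?_⟩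
    · exact hget i x (by omega)
    · exact hget i (x + 1) (by omega)
    · exact hget i (x + 1) (by omega)
    · exact hget i (x + 2) (by omega)
  let ψ : Fin k → ℕ → ℕ := fun i x =>
    ∑ z ∈ Finset.range x, (g (ed G i z) (ed G i (z + 1))).toNat
  have hψ1 : ∀ i x, x + 1 < G.m i →
      (ψ i (x + 1) : ℤ) = ψ i x + g (ed G i x) (ed G i (x + 1)) := by
    intro i x hx
    have h1 := (hg _ _ (hturn i x hx)).1
    have h2 : ψ i (x + 1) = ψ i x + (g (ed G i x) (ed G i (x + 1))).toNat :=
      Finset.sum_range_succ _ _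
    rw [h2]
    omega
  have hψ2 : ∀ i x, x < G.m i → ψ i x ≤ K * x := by
    intro i x
    induction x with
    | zero => intro _; exact Nat.le_of_eq (by simp [ψ])
    | succ x ih =>
      intro hx
      have h1 := (hg _ _ (hturn i x hx)).2
      have h2 := hψ1 i x hx
      have h3 := ih (by omega)
      rw [Nat.mul_succ]
      omega
  obtain ⟨φ, hφ, hno⟩ := exists_phases G (ψ := ψ) (K := K) hr hC1 hD1 hDE husers
  let N : Fin k → ℕ → ℕ := fun i x => φ i + ψ i x
  have hN : ∀ i x, N i x = φ i + ψ i x := fun _ _ => rfl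
  have hI : Inc G N K := by
    constructor
    · intro i x hx
      have h1 := (hg _ _ (hturn i x hx)).1
      have h2 := hψ1 i x hx
      rw [hN, hN]
      omega
    · intro i x hx
      have h1 := (hg _ _ (hturn i x hx)).2
      have h2 := hψ1 i x hx
      rw [hN, hN]
      omega
  -- closed walks
  have hw : ∀ (a : ℕ × ℕ) (n : ℕ) (f : ℤ), Walk (Rel G N) a a n f →
      n ≤ (4 * K + 1) * r → f = 0 := by
    intro a n f hwalk hn
    obtain ⟨w, s, h0, h1, h2, h3⟩ := walk_fun hwalk
    rw [← h3]
    have hR : ∀ a b f, Rel G N a b f → Turn P Set.univ a b ∧ f = g a b := by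
      rintro a b f ⟨i, x, hx, rfl, rfl, hf⟩
      refine ⟨hturn i x hx, ?_⟩
      have h4 := hψ1 i x hx
      rw [hf, hN, hN]
      push_cast
      omega
    refine hbal n w s hn (h1.trans h0.symm) ?_
    intro l hl
    rcases h2 l hl with h | h
    · exact Or.inl (hR _ _ _ h)
    · have h5 := hR _ _ _ h
      exact Or.inr ⟨h5.1, by rw [← h5.2, neg_neg]⟩
  -- no light segment
  have hseg : ∀ (s : ℕ → Fin k × ℕ) (b d t : ℕ → ℕ), Seg G N r s b d t →
      2 * K * r < ∑ a ∈ Finset.range r, (bet N s b a + d a) := by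
    intro s b d t hs
    by_contra hlight
    rw [not_lt] at hlight
    have hbb : ∀ a < r, b a ≤ bet N s b a := fun a ha => (hs.bet_eq hI ha).2
    have hbd : ∀ a < r, b a + d a ≤ 2 * K * r := by
      intro a ha
      have h1 := (Finset.single_le_sum (f := fun a => bet N s b a + d a)
        (fun _ _ => Nat.zero_le _) (Finset.mem_range.mpr ha)).trans hlight
      have h2 := hbb a ha
      omega
    have hlight' : ∑ a ∈ Finset.range r, (b a + d a) ≤ 2 * K * r := by
      refine le_trans (Finset.sum_le_sum fun a ha => ?_) hlight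
      have := hbb a (Finset.mem_range.mp ha)
      omega
    have hpos : ∀ a ≤ r, (s a).2 < D := fun a ha => lt_of_lt_of_le (hs.lt a ha) (hm _)
    let e : Pot k D K r :=
      (fun a => (⟨b a, by have := hbd a a.2; omega⟩, ⟨d a, by have := hbd a a.2; omega⟩,
        ⟨t a, by have := (hs.hop a a.2).ht1; omega⟩),
       fun a => ((s a).1, ⟨(s a).2, hpos a (by have := a.2; omega)⟩))
    refine hno e ?_ ?_
    · refine Finset.mem_filter.mpr ⟨Finset.mem_univ _, ?_, ?_, ?_⟩
      · intro m
        exact (hs.hop m m.2).toGHop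
      · refine Finset.mem_filter.mpr ⟨Finset.mem_univ _, ?_⟩
        rw [Finset.sum_range] at hlight'
        exact hlight'
      · intro a a' haa
        have haa' : (s (a : ℕ)).1 = (s (a' : ℕ)).1 := haa
        by_contra hne
        have hne' : (a : ℕ) ≠ a' := fun h => hne (Fin.ext h)
        rcases Nat.lt_or_gt_of_ne hne' with h | h
        · exact hs.inj hI hw hlight _ _ h (by have := a'.2; omega) haa'
        · exact hs.inj hI hw hlight _ _ h (by have := a.2; omega) haa'.symm
    · intro m
      exact (hs.hop m m.2).eq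
  have hNb : ∀ i x, x < G.m i → N i x ≤ 128 * 4 ^ K * (C * E) + K * D := by
    intro i x hx
    have h1 := hφ i
    have h2 := hm i
    have h3 := hψ2 i x hx
    have h4 : K * x ≤ K * D := Nat.mul_le_mul_left _ (by omega)
    rw [hN]
    omega
  have hM : ∀ i x w, Ch G N i x w →
      w ≤ 3 * (128 * 4 ^ K * (C * E) + K * D) + 4 * K * r :=
    fun i x w h => h.bound hK hr hI hseg hNb
  have hfin : 3 * (128 * 4 ^ K * (C * E) + K * D) + 4 * K * r
      ≤ (384 * 4 ^ K + 7 * K) * (C * E + D) := by
    have h1 : 4 * K * r ≤ 4 * K * D := Nat.mul_le_mul_left _ hrD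
    calc _ ≤ 3 * (128 * 4 ^ K * (C * E) + K * D) + 4 * K * D := by omega
      _ = 384 * 4 ^ K * (C * E) + 7 * K * D := by ring
      _ ≤ (384 * 4 ^ K + 7 * K) * (C * E) + (384 * 4 ^ K + 7 * K) * D :=
          Nat.add_le_add (Nat.mul_le_mul_right _ (by omega)) (Nat.mul_le_mul_right _ (by omega))
      _ = _ := by ring
  refine ⟨tm G N, ?_, ?_, ?_, ?_⟩
  · intro i j h
    apply tm_next hM
    rw [hGm]; omega
  · intro i j h
    exact (tm_le hM (i := i) (x := j) (by rw [hGm]; omega)).trans hfin
  · intro i i' j j' hne h h2 h3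
    exact tm_ne hM hne (hsame' i j i' j' h h2 h3)
  · intro i i' j j' s hne h h' h2 h3 a1 a2 a3 a4
    have hs := hsame' i j i' j' (by omega) h2 h3
    rcases tm_buf hM hne hs (by rw [hGm]; omega) (by rw [hGm]; omega) with h5 | h5
    · omega
    · omega

lemma HasLocalLevels.mono {k K L L' : ℕ} {P : Fin k → List ℕ} {A : Set (Fin k)} (h : L' ≤ L)
    (hb : HasLocalLevels P A K L) : HasLocalLevels P A K L' := by
  obtain ⟨g, h1, h2⟩ := hb
  exact ⟨g, h1, fun n w s hn => h2 n w s (hn.trans h)⟩

lemma routable_of_short {k : ℕ} {P : Fin k → List ℕ} (hlen : ∀ i, (P i).length ≤ 1) (M : ℕ) :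
    Routable P M := by
  refine ⟨fun _ _ => 0, ?_, ?_, ?_, ?_⟩
  · intro i j h; have := hlen i; omega
  · intro i j _; exact Nat.zero_le _
  · intro i i' j j' _ h; have := hlen i; omega
  · intro i i' j j' s _ h; have := hlen i; omega

lemma main' {k C D E K r : ℕ} {P : Fin k → List ℕ} (hK : 1 ≤ K) (hr : 1 ≤ r) (hDE : D ≤ E ^ r)
    (hP : PathFamily P C D) (hbal : HasLocalLevels P Set.univ K ((4 * K + 1) * r)) :
    Routable P ((384 * 4 ^ K + 7 * K) * (C * E + D)) := by
  rcases Nat.eq_zero_or_pos D with hD | hD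
  · refine routable_of_short ?_ _
    intro i
    have := (hP.1 i).2
    omega
  rcases Nat.lt_or_ge D r with h | h
  · refine main (r := D) hK hD le_rfl ?_ hP (hbal.mono (Nat.mul_le_mul_left _ h.le))
    rcases Nat.lt_or_ge E 2 with hE | hE
    · have h1 : E ^ r ≤ 1 := by
        calc E ^ r ≤ 1 ^ r := Nat.pow_le_pow_left (by omega) r
          _ = 1 := one_pow r
      have h2 : D = 1 := by omega
      rw [h2, pow_one]
      rcases Nat.eq_zero_or_pos E with h3 | h3
      · rw [h3, zero_pow (by omega)] at hDE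
        omega
      · exact h3
    · calc D ≤ 2 ^ D := Nat.lt_two_pow_self.le
        _ ≤ E ^ D := Nat.pow_le_pow_left hE D
  · exact main hK hr h hDE hP hbal

/-- Restrict a family to a set of packets (the other packets get the empty path). -/
noncomputable def cut {k : ℕ} (P : Fin k → List ℕ) (A : Set (Fin k)) : Fin k → List ℕ := by
  classical
  exact fun i => if i ∈ A then P i else []

lemma cut_pos {k : ℕ} {P : Fin k → List ℕ} {A : Set (Fin k)} {i : Fin k} (h : i ∈ A) :
    cut P A i = P i := by
  simp [cut, h]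

lemma cut_neg {k : ℕ} {P : Fin k → List ℕ} {A : Set (Fin k)} {i : Fin k} (h : i ∉ A) :
    cut P A i = [] := by
  simp [cut, h]

lemma uses_cut {k : ℕ} {P : Fin k → List ℕ} {A : Set (Fin k)} {i : Fin k} {u v : ℕ}
    (h : Uses (cut P A) i u v) : i ∈ A ∧ Uses P i u v := by
  by_cases hi : i ∈ A
  · obtain ⟨j, hj⟩ := h
    rw [cut_pos hi] at hj
    exact ⟨hi, j, hj⟩
  · obtain ⟨j, hj, _⟩ := h
    rw [cut_neg hi] at hj
    simp at hj

lemma cut_family {k C D : ℕ} {P : Fin k → List ℕ} (A : Set (Fin k)) (hP : PathFamily P C D) :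
    PathFamily (cut P A) C D := by
  constructor
  · intro i
    by_cases hi : i ∈ A
    · rw [cut_pos hi]; exact hP.1 i
    · rw [cut_neg hi]; simp
  · intro u v
    refine le_trans (Set.ncard_le_ncard ?_ (Set.toFinite _)) (hP.2 u v)
    intro i hi
    exact (uses_cut hi).2

/-- Run the classes one after the other. -/
lemma classes {k M q : ℕ} {P : Fin k → List ℕ} (col : Fin k → ℕ) (hcol : ∀ i, col i < q)
    (h : ∀ a < q, Routable (cut P {i | col i = a}) M) :
    Routable P (q * (M + 1)) := by
  have h' : ∀ a, ∃ T : Fin k → ℕ → ℕ, a < q →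
    (∀ i j, j + 2 < (cut P {i | col i = a} i).length → T i j < T i (j + 1)) ∧
    (∀ i j, j + 1 < (cut P {i | col i = a} i).length → T i j ≤ M) ∧
    (∀ i i' j j', i ≠ i' → j + 1 < (cut P {i | col i = a} i).length →
        (cut P {i | col i = a} i)[j]? = (cut P {i | col i = a} i')[j']? →
        (cut P {i | col i = a} i)[j+1]? = (cut P {i | col i = a} i')[j'+1]? →
        T i j ≠ T i' j') ∧
    (∀ i i' j j' s, i ≠ i' → j + 2 < (cut P {i | col i = a} i).length →
        j' + 2 < (cut P {i | col i = a} i').length →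
        (cut P {i | col i = a} i)[j]? = (cut P {i | col i = a} i')[j']? →
        (cut P {i | col i = a} i)[j+1]? = (cut P {i | col i = a} i')[j'+1]? →
        T i j ≤ s → s < T i (j + 1) → T i' j' ≤ s → s < T i' (j' + 1) → False) := by
    intro a
    by_cases ha : a < q
    · obtain ⟨T, hT⟩ := h a ha
      exact ⟨T, fun _ => hT⟩
    · exact ⟨fun _ _ => 0, fun h => absurd h ha⟩
  choose T hT using h'
  have hcut : ∀ i, cut P {i' | col i' = col i} i = P i := fun i => cut_pos rfl
  have hcut' : ∀ i i', col i' = col i → cut P {l | col l = col i} i' = P i' :=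
    fun i i' h => cut_pos h
  have hlow : ∀ i j, j + 1 < (P i).length → T (col i) i j ≤ M := by
    intro i j hj
    refine (hT (col i) (hcol i)).2.1 i j ?_
    rw [hcut]; exact hj
  have hsep : ∀ i i' t t' : ℕ, i < i' → t ≤ M →
      i * (M + 1) + t < i' * (M + 1) + t' := by
    intro i i' t t' hi ht
    have : (i + 1) * (M + 1) ≤ i' * (M + 1) := Nat.mul_le_mul_right _ hi
    have e : (i + 1) * (M + 1) = i * (M + 1) + (M + 1) := by ring
    omega
  refine ⟨fun i j => col i * (M + 1) + T (col i) i j, ?_, ?_, ?_, ?_⟩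
  · intro i j hj
    have := (hT (col i) (hcol i)).1 i j (by rw [hcut]; exact hj)
    show col i * (M + 1) + T (col i) i j < col i * (M + 1) + T (col i) i (j + 1)
    omega
  · intro i j hj
    have h1 := hlow i j hj
    have h2 : (col i + 1) * (M + 1) ≤ q * (M + 1) := Nat.mul_le_mul_right _ (hcol i)
    have e : (col i + 1) * (M + 1) = col i * (M + 1) + (M + 1) := by ring
    show col i * (M + 1) + T (col i) i j ≤ q * (M + 1)
    omega
  · intro i i' j j' hne hj h2 h3
    show col i * (M + 1) + T (col i) i j ≠ col i' * (M + 1) + T (col i') i' j'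
    have hj' : j' + 1 < (P i').length := by
      rw [List.getElem?_eq_getElem hj] at h3
      exact (List.getElem?_eq_some_iff.mp h3.symm).1
    rcases lt_trichotomy (col i) (col i') with h | h | h
    · exact (hsep _ _ _ _ h (hlow i j hj)).ne
    · have h4 := (hT (col i) (hcol i)).2.2.1 i i' j j' hne (by rw [hcut]; exact hj)
        (by rw [hcut, hcut' i i' h.symm]; exact h2) (by rw [hcut, hcut' i i' h.symm]; exact h3)
      rw [← h]
      omega
    · exact (hsep _ _ _ _ h (hlow i' j' hj')).ne'
  · intro i i' j j' s hne hj hj' h2 h3 a1 a2 a3 a4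
    have b1 : col i * (M + 1) + T (col i) i j ≤ s := a1
    have b2 : s < col i * (M + 1) + T (col i) i (j + 1) := a2
    have b3 : col i' * (M + 1) + T (col i') i' j' ≤ s := a3
    have b4 : s < col i' * (M + 1) + T (col i') i' (j' + 1) := a4
    rcases lt_trichotomy (col i) (col i') with h | h | h
    · have := hsep _ _ _ (T (col i') i' j') h (hlow i (j + 1) (by omega))
      omega
    · rw [← h] at b3 b4
      refine (hT (col i) (hcol i)).2.2.2 i i' j j' (s - col i * (M + 1)) hne
        (by rw [hcut]; exact hj) (by rw [hcut' i i' h.symm]; exact hj')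
        (by rw [hcut, hcut' i i' h.symm]; exact h2) (by rw [hcut, hcut' i i' h.symm]; exact h3)
        (by omega) (by omega) (by omega) (by omega)
    · have := hsep _ _ _ (T (col i) i j) h (hlow i' (j' + 1) (by omega))
      omega

lemma turn_cut {k : ℕ} {P : Fin k → List ℕ} {A : Set (Fin k)} {a b : ℕ × ℕ}
    (h : Turn (cut P A) Set.univ a b) : Turn P A a b := by
  obtain ⟨i, _, j, hj⟩ := h
  by_cases hi : i ∈ A
  · rw [cut_pos hi] at hj
    exact ⟨i, hi, j, hj⟩
  · rw [cut_neg hi] at hj
    simp at hj

lemma local_cut {k K L : ℕ} {P : Fin k → List ℕ} {A : Set (Fin k)}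
    (h : HasLocalLevels P A K L) :
    HasLocalLevels (cut P A) Set.univ K L := by
  obtain ⟨g, hg, h⟩ := h
  refine ⟨g, fun a b hab => hg a b (turn_cut hab), ?_⟩
  intro n w s hn h0 hs
  refine h n w s hn h0 ?_
  intro l hl
  rcases hs l hl with ⟨h1, h2⟩ | ⟨h1, h2⟩
  · exact Or.inl ⟨turn_cut h1, h2⟩
  · exact Or.inr ⟨turn_cut h1, h2⟩

lemma Routable.mono {k M M' : ℕ} {P : Fin k → List ℕ} (h : Routable P M) (hM : M ≤ M') :
    Routable P M' := by
  obtain ⟨T, h1, h2, h3, h4⟩ := h
  exact ⟨T, h1, fun i j hj => (h2 i j hj).trans hM, h3, h4⟩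

/-- For every `K ≥ 1` there is a constant `c` such that every family of simple directed paths with
congestion at most `C` and dilation at most `D` that splits into `q` subfamilies with balanced
increments up to the length `(4 * K + 1) * r`, where `r ≥ 1` and `D ≤ E ^ r`, can be routed with
buffers of size one within `c * q * (C * E + D)` steps. -/
theorem result :
    ∀ K : ℕ, 1 ≤ K → ∃ c : ℕ,
      ∀ (k C D E r q : ℕ) (P : Fin k → List ℕ) (col : Fin k → ℕ), PathFamily P C D →
        (∀ i, col i < q) → 1 ≤ r → D ≤ E ^ r →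
        (∀ a < q, HasLocalLevels P {i | col i = a} K ((4 * K + 1) * r)) →
        Routable P (c * q * (C * E + D)) := by
  intro K hK
  set c0 := 384 * 4 ^ K + 7 * K with hc0
  refine ⟨c0 + 1, ?_⟩
  intro k C D E r q P col hP hcol hr hDE hbal
  rcases Nat.eq_zero_or_pos D with hD | hD
  · refine routable_of_short ?_ _
    intro i
    have := (hP.1 i).2
    omega
  · refine (classes (M := c0 * (C * E + D)) col hcol ?_).mono ?_
    · intro a ha
      exact main' hK hr hDE (cut_family _ hP) (local_cut (hbal a ha))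
    · have h1 : c0 * (C * E + D) + 1 ≤ (c0 + 1) * (C * E + D) := by
        rw [Nat.succ_mul]
        omega
      calc q * (c0 * (C * E + D) + 1) ≤ q * ((c0 + 1) * (C * E + D)) :=
            Nat.mul_le_mul_left _ h1
        _ = (c0 + 1) * q * (C * E + D) := by ring

end Pool.Agent.Results.MP_ac1d20_lc.LocallyLeveled
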